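import Pool.Agent.N922.PZ.Stm
import Pool.Agent.N896.PQ.Sh7

/-!
# Project PZ (helper922), part ONE: one curve
-/

set_option autoImplicit false
set_option linter.all false

open Polynomial

namespace Pool.Agent.N863.PZ

open Pool.Agent.Y723.HJ (CR OddM HF clmap mapR CC mi bar nm cl)
open Pool.Agent.N783.PQ
open Pool.Agent.N922.PY (Good fK f0)
open Pool.Agent.N922.PZ

theorem key (h1 : S_SEL) (a : Fin (2 * 2) → ℤ) (hirr : Irreducible (fol a ℚ))
    (hz : SelZero (pol a)) (P : ∀ (p : ℕ) [Fact p.Prime], Option (ℚ_[p] × ℚ_[p]))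
    (Pr : Option (ℝ × ℝ)) (k : ℕ) (hs : Survives a (2 ^ k) P Pr) :
    ∃ T : Jac a QB, 2 ^ k • T = 0 ∧
      (∀ (p : ℕ) [Fact p.Prime], LocalDescent a (2 ^ k) ℚ_[p] (fun σ => act a σ T - T) (P p)) ∧
      LocalDescent a (2 ^ k) ℝ (fun σ => act a σ T - T) Pr := by
  obtain ⟨c, hc1, hc2, hc3, hc4⟩ := hs
  have hsha : IsShaCocycle a c := by
    refine ⟨hc1, fun p _ ι => ?_, fun ι => ?_⟩
    · obtain ⟨R, _, hR⟩ := hc3 p ι
      exact ⟨R, hR⟩
    · obtain ⟨R, _, hR⟩ := hc4 ι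
      exact ⟨R, hR⟩
  obtain ⟨T, hT1, hT2⟩ := h1 2 a hirr hz k c hsha hc2
  have hT : c = fun σ => act a σ T - T := funext hT2
  subst hT
  exact ⟨T, hT1, fun p _ => hc3 p, hc4⟩

theorem one (h1 : S_SEL) (h2 : S_DES) (h3 : S_RTC) (h4 : S_REA) (h5 : Pool.Agent.N922.PY.S_LOC) :
    S_ONE := by
  intro a hirr hz hcg P Pr hP hPr hs
  refine ⟨?_, ?_⟩
  · by_contra hne
    obtain ⟨⟨x, y⟩, hxy⟩ := Option.ne_none_iff_exists'.1 hne
    set f : ℤ_[2][X] := (pol a).map (Int.castRingHom ℤ_[2]) with hf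
    have hfK : fK f = fol a ℚ_[2] := by
      show ((pol a).map (Int.castRingHom ℤ_[2])).map (algebraMap ℤ_[2] ℚ_[2]) = _
      rw [Polynomial.map_map]
      congr 1
    haveI hHF : HF (fol a ℚ_[2]) := Pool.Agent.N896.PQ.hf_of hirr _
    haveI hHF' : HF (fK f) := by
      rw [hfK]
      exact hHF
    have hgood : Good f := by
      refine ⟨(pol_monic a).map _, ?_, ?_⟩
      · rw [hf, (pol_monic a).natDegree_map, pol_natDegree]
      · intro j
        obtain ⟨c, hc⟩ := hcg j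
        refine ⟨(c : ℤ_[2]), ?_⟩
        rw [hf, coeff_map]
        have := congrArg (fun t : ℤ => (t : ℤ_[2])) hc
        push_cast at this
        simpa using this
    have hpt : y ^ 2 = (fol a ℚ_[2]).eval x := hP 2 x y hxy
    obtain ⟨k, hk⟩ := h5 f hgood x y (by rw [hfK]; exact hpt)
    obtain ⟨T, hT, hloc, _⟩ := key h1 a hirr hz P Pr k (hs k)
    have hl := hloc 2
    rw [hxy] at hl
    obtain ⟨R, hR1, hR2⟩ := h2 2 a (2 ^ k) ℚ_[2] T _ hT hl
    obtain ⟨d, hd⟩ := h3 2 a (2 ^ k) ℚ_[2] x y R hirr hpt hR1 hR2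
    have hk' : ∀ (q : ℚ_[2][X]) (hq : fK f = q) [HF q] (d : ClassGroup (CR q)),
        d ^ 2 ^ k ≠ cl (mi q (X - C x) (C y)) := by
      intro q hq _ d
      subst hq
      exact hk d
    exact hk' _ hfK d hd
  · intro x y hxy α hα
    obtain ⟨T, hT, _, hloc⟩ := key h1 a hirr hz P Pr 1 (hs 1)
    rw [hxy] at hloc
    obtain ⟨R, hR1, hR2⟩ := h2 2 a (2 ^ 1) ℝ T _ hT hloc
    haveI : HF (fol a ℝ) := Pool.Agent.N896.PQ.hf_of hirr _
    have hpt : y ^ 2 = (fol a ℝ).eval x := hPr x y hxy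
    obtain ⟨d, hd⟩ := h3 2 a (2 ^ 1) ℝ x y R hirr hpt hR1 hR2
    rw [pow_one] at hd
    exact h4 (fol a ℝ) x y d hpt hd α hα

end Pool.Agent.N863.PZ
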